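import Pool.Agent.Q297.AiryPS

open Finset

namespace Pool.Agent.Results.MP_c1403d_pr.AiryLeading

/-- The algebra `ℚ[z, a, a⁻¹, b]`, as the monoid algebra on exponents: the basis element indexed
by `(j, k, l)` is the monomial `z ^ j * b ^ k * a ^ l` with `j, k` natural numbers and `l` an
integer. -/
abbrev Alg : Type := AddMonoidAlgebra ℚ (ℕ × ℕ × ℤ)

/-- The monomial `z ^ j * b ^ k * a ^ l`. -/
noncomputable def mon (j k : ℕ) (l : ℤ) : Alg := AddMonoidAlgebra.single (j, k, l) 1

/-- The indeterminate `z`. -/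
noncomputable def z : Alg := mon 1 0 0
/-- The indeterminate `b`. -/
noncomputable def b : Alg := mon 0 1 0
/-- The indeterminate `a`. -/
noncomputable def a : Alg := mon 0 0 1
/-- The inverse of `a`. -/
noncomputable def ainv : Alg := mon 0 0 (-1)

/-- Value of the derivation on the monomial with exponents `(j, k, l)`:
`j z^(j-1) b^k a^l + k z^(j+1) b^(k-1) a^(l+1) + l z^j b^(k+1) a^(l-1)`. -/
noncomputable def dMon (e : ℕ × ℕ × ℤ) : Alg :=
  (e.1 : ℚ) • mon (e.1 - 1) e.2.1 e.2.2 + (e.2.1 : ℚ) • mon (e.1 + 1) (e.2.1 - 1) (e.2.2 + 1) +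
    (e.2.2 : ℚ) • mon e.1 (e.2.1 + 1) (e.2.2 - 1)

/-- The linear extension of `dMon`. -/
noncomputable def dLin : Alg →ₗ[ℚ] Alg :=
  (Finsupp.linearCombination ℚ dMon) ∘ₗ (AddMonoidAlgebra.coeffLinearEquiv ℚ).toLinearMap

lemma dLin_single (e : ℕ × ℕ × ℤ) (c : ℚ) :
    dLin (AddMonoidAlgebra.single e c) = c • dMon e := by
  simp [dLin, AddMonoidAlgebra.coeff_single]

lemma single_mul_mon (e : ℕ × ℕ × ℤ) (c : ℚ) (j k : ℕ) (l : ℤ) :
    (AddMonoidAlgebra.single e c : Alg) * mon j k l = c • mon (e.1 + j) (e.2.1 + k) (e.2.2 + l) := by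
  obtain ⟨j0, k0, l0⟩ := e
  simp only [mon, AddMonoidAlgebra.single_mul_single, AddMonoidAlgebra.smul_single]
  simp

lemma cast_smul_eq (j1 j2 : ℕ) (f : ℕ → Alg) :
    (j2 : ℚ) • f (j1 + (j2 - 1)) = (j2 : ℚ) • f (j1 + j2 - 1) := by
  rcases j2 with _ | j
  · simp
  · congr 2

lemma dMon_add (e f : ℕ × ℕ × ℤ) :
    dMon (e + f) = AddMonoidAlgebra.single e 1 * dMon f + AddMonoidAlgebra.single f 1 * dMon e := by
  obtain ⟨j1, k1, l1⟩ := e
  obtain ⟨j2, k2, l2⟩ := f
  simp only [dMon, mul_add, mul_smul_comm, single_mul_mon, one_smul, Prod.mk_add_mk]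
  have h1 := cast_smul_eq j1 j2 (fun x => mon x (k1 + k2) (l1 + l2))
  have h2 := cast_smul_eq j2 j1 (fun x => mon x (k2 + k1) (l2 + l1))
  have h3 := cast_smul_eq k1 k2 (fun x => mon (j1 + (j2 + 1)) x (l1 + (l2 + 1)))
  have h4 := cast_smul_eq k2 k1 (fun x => mon (j2 + (j1 + 1)) x (l2 + (l1 + 1)))
  rw [h1, h2, h3, h4]
  have e1 : j2 + j1 - 1 = j1 + j2 - 1 := by omega
  have e2 : k2 + k1 = k1 + k2 := by omega
  have e3 : l2 + l1 = l1 + l2 := by omega
  have e4 : k2 + k1 - 1 = k1 + k2 - 1 := by omega
  have e5 : j1 + (j2 + 1) = j1 + j2 + 1 := by omega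
  have e6 : j2 + (j1 + 1) = j1 + j2 + 1 := by omega
  have e7 : l1 + (l2 + 1) = l1 + l2 + 1 := by omega
  have e8 : l2 + (l1 + 1) = l1 + l2 + 1 := by omega
  have e9 : k1 + (k2 + 1) = k1 + k2 + 1 := by omega
  have e10 : k2 + (k1 + 1) = k1 + k2 + 1 := by omega
  have e11 : l1 + (l2 - 1) = l1 + l2 - 1 := by omega
  have e12 : l2 + (l1 - 1) = l1 + l2 - 1 := by omega
  have e13 : j2 + j1 = j1 + j2 := by omega
  rw [e4, e1, e2, e3, e5, e6, e7, e8, e9, e10, e11, e12, e13]
  push_cast
  module

/-- The derivation `D` with `D z = 1`, `D a = b`, `D b = z a`. -/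
noncomputable def D : Derivation ℚ Alg Alg := Derivation.mk' dLin (by
  intro x y
  induction x using AddMonoidAlgebra.induction_linear with
  | zero => simp
  | add x1 x2 h1 h2 => rw [add_mul, map_add, h1, h2, add_smul, map_add, smul_add]; abel
  | single e c =>
    induction y using AddMonoidAlgebra.induction_linear with
    | zero => simp
    | add y1 y2 h1 h2 => rw [mul_add, map_add, h1, h2, add_smul, map_add, smul_add]; abel
    | single f d =>
      rw [AddMonoidAlgebra.single_mul_single, dLin_single, dLin_single, dLin_single, dMon_add]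
      have h1 : (AddMonoidAlgebra.single e c : Alg) = c • AddMonoidAlgebra.single e 1 := by
        rw [AddMonoidAlgebra.smul_single]; simp
      have h2 : (AddMonoidAlgebra.single f d : Alg) = d • AddMonoidAlgebra.single f 1 := by
        rw [AddMonoidAlgebra.smul_single]; simp
      rw [h1, h2]
      simp only [smul_eq_mul, mul_smul_comm, smul_mul_assoc, smul_add, smul_smul]
      rw [mul_comm d c])

/-- `c n j k` is the coefficient of `z ^ j * b ^ k * a ^ (-(k+2))` in `a⁻¹ * D ^ n (a⁻¹)`. -/
noncomputable def c (n j k : ℕ) : ℚ :=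
  (ainv * (⇑D)^[n] ainv).coeff (j, k, -((k : ℤ) + 2))

/-- The reduction `R[j, k, ℓ]`, with values in the rational vector space of finite formal
combinations of symbols `[j, k, ℓ]` (a symbol is a triple of natural numbers).  The symbols with
`j < 0` are zero: this is automatic here since they only occur with coefficient `j = 0`. -/
noncomputable def R : ℕ → ℕ → ℕ → (ℕ × ℕ × ℕ →₀ ℚ)
  | j, 0, l => Finsupp.single (j, 0, l) 1
  | j, 1, l => ((j : ℚ) / ((l : ℚ) - 1)) • R (j - 1) 0 (l - 1)
  | j, (k + 2), l => ((j : ℚ) / ((l : ℚ) - 1)) • R (j - 1) (k + 1) (l - 1) +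
      (((k : ℚ) + 1) / ((l : ℚ) - 1)) • R (j + 1) k (l - 2)

/-- The combination `∑ c^{(n)}_{jk} R[j, k, k+2]` (all coefficients with `j > n` or `k > n`
vanish, see the theorem). -/
noncomputable def reduced (n : ℕ) : ℕ × ℕ × ℕ →₀ ℚ :=
  ∑ j ∈ range (n + 1), ∑ k ∈ range (n + 1), c n j k • R j k (k + 2)

/-- The coefficient `b_{nj}` of `[j, 0, 2]` in the reduced combination, that is, the coefficient of
`z ^ j` in `p_n`. -/
noncomputable def bcoef (n j : ℕ) : ℚ := reduced n (j, 0, 2)

/-- The power series of `sinh`. -/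
noncomputable def sinhSeries : PowerSeries ℚ :=
  PowerSeries.mk fun n => if Even n then 0 else 1 / (n.factorial : ℚ)

/-- The power series `∑ b_{2m,m} x^{2m} / (2m)!`. -/
noncomputable def leadingSeries : PowerSeries ℚ :=
  PowerSeries.mk fun n => if Even n then bcoef n (n / 2) / (n.factorial : ℚ) else 0

/-! ### Coefficient recursion -/

lemma D_apply (x : Alg) : D x = dLin x := rfl

lemma coeff_mon (j k : ℕ) (l : ℤ) (f : ℕ × ℕ × ℤ) :
    (mon j k l).coeff f = if (j, k, l) = f then 1 else 0 := by
  rw [mon, AddMonoidAlgebra.coeff_single, Finsupp.single_apply]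

lemma coeff_D (y : Alg) (j k : ℕ) (l : ℤ) :
    (D y).coeff (j, k, l) = ((j : ℚ) + 1) * y.coeff (j + 1, k, l) +
      (if j = 0 then 0 else ((k : ℚ) + 1) * y.coeff (j - 1, k + 1, l - 1)) +
      (if k = 0 then 0 else ((l : ℚ) + 1) * y.coeff (j, k - 1, l + 1)) := by
  induction y using AddMonoidAlgebra.induction_linear with
  | zero => simp
  | add x1 x2 h1 h2 =>
    rw [map_add, AddMonoidAlgebra.coeff_add, Finsupp.add_apply, h1, h2]
    simp only [AddMonoidAlgebra.coeff_add, Finsupp.add_apply]
    split_ifs <;> ring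
  | single e r =>
    obtain ⟨j0, k0, l0⟩ := e
    rw [D_apply, dLin_single]
    simp only [dMon, AddMonoidAlgebra.coeff_smul, AddMonoidAlgebra.coeff_add, Finsupp.smul_apply,
      Finsupp.add_apply, coeff_mon, AddMonoidAlgebra.coeff_single, Finsupp.single_apply, smul_eq_mul,
      Prod.mk.injEq]
    have h1 : (j0 : ℚ) * (if j0 - 1 = j ∧ k0 = k ∧ l0 = l then 1 else 0) =
        ((j : ℚ) + 1) * (if j0 = j + 1 ∧ k0 = k ∧ l0 = l then 1 else 0) := by
      rcases j0 with _ | j0
      · simp
      · by_cases h : j0 = j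
        · subst h; simp
        · have h' : ¬ (j0 + 1 = j + 1) := by omega
          simp [h]
    have h2 : (k0 : ℚ) * (if j0 + 1 = j ∧ k0 - 1 = k ∧ l0 + 1 = l then 1 else 0) =
        (if j = 0 then 0 else ((k : ℚ) + 1) *
          (if j0 = j - 1 ∧ k0 = k + 1 ∧ l0 = l - 1 then 1 else 0)) := by
      rcases j with _ | j
      · simp
      · rcases k0 with _ | k0
        · simp
        · by_cases h : k0 = k
          · subst h
            have : (l0 + 1 = l) ↔ (l0 = l - 1) := by omega
            simp [this]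
          · have h' : ¬ (k0 + 1 = k + 1) := by omega
            simp [h]
    have h3 : (l0 : ℚ) * (if j0 = j ∧ k0 + 1 = k ∧ l0 - 1 = l then 1 else 0) =
        (if k = 0 then 0 else ((l : ℚ) + 1) *
          (if j0 = j ∧ k0 = k - 1 ∧ l0 = l + 1 then 1 else 0)) := by
      rcases k with _ | k
      · simp
      · by_cases h : l0 = l + 1
        · subst h; simp
        · have : ¬ (l0 - 1 = l) := by omega
          simp [h, this]
    rw [h1, h2, h3]
    split_ifs <;> simp_all <;> ring

lemma coeff_ainv_mul (y : Alg) (j k : ℕ) (l : ℤ) :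
    (ainv * y).coeff (j, k, l) = y.coeff (j, k, l + 1) := by
  induction y using AddMonoidAlgebra.induction_linear with
  | zero => simp
  | add x1 x2 h1 h2 =>
    rw [mul_add, AddMonoidAlgebra.coeff_add, Finsupp.add_apply, h1, h2]
    simp only [AddMonoidAlgebra.coeff_add, Finsupp.add_apply]
  | single e r =>
    obtain ⟨j0, k0, l0⟩ := e
    rw [ainv, mon, AddMonoidAlgebra.single_mul_single, AddMonoidAlgebra.coeff_single,
      AddMonoidAlgebra.coeff_single, Finsupp.single_apply, Finsupp.single_apply]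
    simp only [Prod.mk_add_mk, Prod.mk.injEq, zero_add, one_mul]
    have : (-1 + l0 = l) ↔ (l0 = l + 1) := by omega
    simp only [this]

/-- coefficients of the iterates -/
noncomputable def y (n : ℕ) : Alg := (⇑D)^[n] ainv

lemma y_succ (n : ℕ) : y (n + 1) = D (y n) := by
  simp only [y, Function.iterate_succ_apply']

lemma c_eq (n j k : ℕ) : c n j k = (y n).coeff (j, k, -((k : ℤ) + 1)) := by
  unfold c
  rw [coeff_ainv_mul]
  congr 3

lemma y_support (n : ℕ) : ∀ (j k : ℕ) (l : ℤ), (l ≠ -((k : ℤ) + 1) ∨ n < 2 * j + k) →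
    (y n).coeff (j, k, l) = 0 := by
  induction n with
  | zero =>
    intro j k l h
    show (ainv).coeff (j, k, l) = 0
    rw [ainv, coeff_mon, if_neg]
    simp only [Prod.mk.injEq]
    omega
  | succ n ih =>
    intro j k l h
    rw [y_succ, coeff_D, ih (j + 1) k l (by omega)]
    have h2 : (if j = 0 then (0:ℚ) else ((k : ℚ) + 1) * (y n).coeff (j - 1, k + 1, l - 1)) = 0 := by
      split_ifs with h0
      · rfl
      · rw [ih (j - 1) (k + 1) (l - 1) (by push_cast; omega)]; simp
    have h3 : (if k = 0 then (0:ℚ) else ((l : ℚ) + 1) * (y n).coeff (j, k - 1, l + 1)) = 0 := by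
      split_ifs with h0
      · rfl
      · rw [ih j (k - 1) (l + 1) (by
          rcases h with h | h
          · left; omega
          · right; omega)]; simp
    rw [h2, h3]; simp

lemma c_eq_zero {n j k : ℕ} (h : n < 2 * j + k) : c n j k = 0 := by
  rw [c_eq]; exact y_support n j k _ (Or.inr h)

lemma q_coeff_zero (n : ℕ) : ∀ k, n < k → (Q297.Airy.q n).coeff k = 0 := by
  induction n with
  | zero =>
    intro k hk
    rw [Q297.Airy.q_zero, Polynomial.coeff_one, if_neg (by omega)]
  | succ n ih =>
    intro k hk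
    obtain ⟨k, rfl⟩ : ∃ k', k = k' + 2 := ⟨k - 2, by omega⟩
    rw [Q297.Airy.q_succ, sub_mul, one_mul, Polynomial.coeff_sub, Polynomial.coeff_sub,
      Polynomial.coeff_X_pow_mul, Polynomial.coeff_derivative, Polynomial.coeff_derivative,
      Polynomial.coeff_X_mul, ih (k + 2 + 1) (by omega), ih (k + 1) (by omega)]
    simp

lemma c_top (n : ℕ) : ∀ j k, 2 * j + k = n → c n j k = (Q297.Airy.q n).coeff k := by
  induction n with
  | zero =>
    intro j k h
    obtain rfl : j = 0 := by omega
    obtain rfl : k = 0 := by omega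
    rw [c_eq]
    show (ainv).coeff _ = _
    rw [ainv, coeff_mon, Q297.Airy.q_zero]
    simp
  | succ n ih =>
    intro j k h
    rw [c_eq, y_succ, coeff_D, y_support n (j + 1) k _ (by omega), Q297.Airy.q_succ, sub_mul,
      one_mul, Polynomial.coeff_sub, Polynomial.coeff_sub, Polynomial.coeff_derivative]
    have h2 : (if j = 0 then (0:ℚ) else ((k : ℚ) + 1) *
        (y n).coeff (j - 1, k + 1, -((k : ℤ) + 1) - 1)) =
        (Q297.Airy.q n).coeff (k + 1) * ((k : ℚ) + 1) := by
      split_ifs with h0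
      · rw [q_coeff_zero n (k + 1) (by omega)]; simp
      · rw [← ih (j - 1) (k + 1) (by omega), c_eq, mul_comm]
        congr 3
    have h3 : (if k = 0 then (0:ℚ) else (((-((k : ℤ) + 1) : ℤ) : ℚ) + 1) *
        (y n).coeff (j, k - 1, -((k : ℤ) + 1) + 1)) =
        - ((Polynomial.X ^ 2 * Polynomial.derivative (Q297.Airy.q n)).coeff k +
          (Polynomial.X * (Q297.Airy.q n)).coeff k) := by
      rcases k with _ | k
      · simp
      · rw [if_neg (by omega), Polynomial.coeff_X_mul]
        have e1 : (y n).coeff (j, k + 1 - 1, -(((k + 1 : ℕ) : ℤ) + 1) + 1) =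
            (Q297.Airy.q n).coeff k := by
          rw [← ih j k (by omega), c_eq]
          congr 3
        rw [e1]
        rcases k with _ | k
        · have : (Polynomial.X ^ 2 * Polynomial.derivative (Q297.Airy.q n)).coeff (0 + 1) = 0 := by
            rw [Polynomial.coeff_X_pow_mul']; simp
          rw [this]; push_cast; ring
        · rw [Polynomial.coeff_X_pow_mul, Polynomial.coeff_derivative]
          push_cast; ring
    rw [h2, h3]
    ring

/-! ### The reduction -/

lemma R_apply (k : ℕ) : ∀ j m, 2 * j + k ≤ 2 * m →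
    R j k (k + 2) (m, 0, 2) =
      if 2 * j + k = 2 * m then (if Even k then 1 / ((k : ℚ) + 1) else 0) else 0 := by
  induction k using Nat.strong_induction_on with
  | _ k ih =>
    intro j m h
    match k, ih, h with
    | 0, _, h =>
      rw [R, Finsupp.single_apply]
      by_cases hj : j = m
      · subst hj; simp
      · have h1 : ¬ (2 * j + 0 = 2 * m) := by omega
        rw [if_neg h1, if_neg]
        simp [hj]
    | 1, _, h =>
      rw [R, if_neg (by omega), Finsupp.smul_apply, R, Finsupp.single_apply]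
      rcases j with _ | j
      · simp
      · rw [if_neg]
        · simp
        · simp only [Prod.mk.injEq]; omega
    | (k + 2), ih, h =>
      have i1 := ih (k + 1) (by omega)
      have i2 := ih k (by omega)
      rw [R, Finsupp.add_apply, Finsupp.smul_apply, Finsupp.smul_apply]
      have e1 : k + 2 + 2 - 1 = (k + 1) + 2 := by omega
      have e2 : k + 2 + 2 - 2 = k + 2 := by omega
      rw [e1, e2, i2 (j + 1) m (by omega)]
      have e3 : ((j : ℚ) / (((k + 2 + 2 : ℕ) : ℚ) - 1)) • (R (j - 1) (k + 1) (k + 1 + 2)) (m, 0, 2) = 0 := by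
        rcases j with _ | j
        · simp
        · rw [i1 (j + 1 - 1) m (by omega), if_neg (by omega)]; simp
      rw [e3, zero_add]
      by_cases hj : 2 * j + (k + 2) = 2 * m
      · rw [if_pos hj, if_pos (by omega)]
        have : Even (k + 2) ↔ Even k := by
          rw [Nat.even_add_one, Nat.even_add_one]; simp
        by_cases hk : Even k
        · rw [if_pos hk, if_pos (this.2 hk)]
          have h2 : (k:ℚ) + 1 ≠ 0 := by positivity
          have h3 : (k:ℚ) + 2 + 1 ≠ 0 := by positivity
          have h4 : ((k + 2 + 2 : ℕ) : ℚ) - 1 = (k:ℚ) + 2 + 1 := by push_cast; ring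
          rw [h4]; push_cast
          rw [smul_eq_mul]
          field_simp
        · rw [if_neg hk, if_neg (fun h => hk (this.1 h))]; simp
      · rw [if_neg hj, if_neg (by omega)]; simp

lemma R_support (k : ℕ) : ∀ j s, R j k (k + 2) s ≠ 0 → s.2 = (0, 2) := by
  induction k using Nat.strong_induction_on with
  | _ k ih =>
    intro j s h
    match k, ih, h with
    | 0, _, h =>
      rw [R, Finsupp.single_apply] at h
      by_contra hs
      apply h
      rw [if_neg]
      rintro rfl
      exact hs rfl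
    | 1, _, h =>
      rw [R, Finsupp.smul_apply, R, Finsupp.single_apply] at h
      by_contra hs
      apply h
      rw [if_neg]
      · simp
      · rintro rfl
        exact hs rfl
    | (k + 2), ih, h =>
      have i1 := ih (k + 1) (by omega)
      have i2 := ih k (by omega)
      by_contra hs
      apply h
      rw [R, Finsupp.add_apply, Finsupp.smul_apply, Finsupp.smul_apply]
      have e1 : k + 2 + 2 - 1 = (k + 1) + 2 := by omega
      have e2 : k + 2 + 2 - 2 = k + 2 := by omega
      rw [e1, e2]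
      have a1 : R (j - 1) (k + 1) (k + 1 + 2) s = 0 := by
        by_contra h'
        exact hs (i1 _ _ h')
      have a2 : R (j + 1) k (k + 2) s = 0 := by
        by_contra h'
        exact hs (i2 _ _ h')
      rw [a1, a2]; simp

lemma lam_eq (p : Polynomial ℚ) (n : ℕ) (hp : ∀ k, 2 * n < k → p.coeff k = 0) :
    Q297.Airy.lam p = ∑ i ∈ range (n + 1), p.coeff (2 * i) / ((2 * i : ℕ) + 1 : ℚ) := by
  have h1 : p = ∑ k ∈ range (2 * n + 1), Polynomial.monomial k (p.coeff k) := by
    apply Polynomial.as_sum_range' p (2 * n + 1)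
    by_contra h
    push Not at h
    have : p ≠ 0 := by
      rintro rfl; simp at h
    have h2 := hp p.natDegree (by omega)
    exact this (Polynomial.leadingCoeff_eq_zero.1 h2)
  conv_lhs => rw [h1]
  rw [map_sum]
  simp only [Q297.Airy.lam_monomial]
  clear h1 hp
  induction n with
  | zero => simp
  | succ n ih =>
    rw [show 2 * (n + 1) + 1 = (2 * n + 1) + 1 + 1 by ring, Finset.sum_range_succ,
      Finset.sum_range_succ, ih, Finset.sum_range_succ _ (n + 1)]
    have h1 : ¬ Even (2 * n + 1) := by simp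
    have h2 : Even (2 * n + 1 + 1) := by
      rw [Nat.even_add_one]; simp
    rw [if_neg h1, if_pos h2]
    have e : 2 * (n + 1) = 2 * n + 1 + 1 := by ring
    rw [e]
    push_cast; ring

lemma q_coeff_parity (n : ℕ) : ∀ k, ¬ Even (n + k) → (Q297.Airy.q n).coeff k = 0 := by
  induction n with
  | zero =>
    intro k hk
    rw [Q297.Airy.q_zero, Polynomial.coeff_one, if_neg]
    rintro rfl
    simp at hk
  | succ n ih =>
    intro k hk
    have h1 : (Q297.Airy.q n).coeff (k + 1) = 0 := by
      apply ih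
      rw [show n + (k + 1) = n + 1 + k by ring]; exact hk
    rw [Q297.Airy.q_succ, sub_mul, one_mul, Polynomial.coeff_sub, Polynomial.coeff_sub,
      Polynomial.coeff_derivative, h1]
    rcases k with _ | k
    · simp
    · have h2 : (Q297.Airy.q n).coeff k = 0 := by
        apply ih
        intro h
        apply hk
        rw [show n + 1 + (k + 1) = n + k + 1 + 1 by ring, Nat.even_add_one, Nat.even_add_one]
        simpa using h
      rw [Polynomial.coeff_X_mul, h2]
      rcases k with _ | k
      · rw [Polynomial.coeff_X_pow_mul']; simp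
      · rw [Polynomial.coeff_X_pow_mul, Polynomial.coeff_derivative, h2]; simp

lemma lam_q_odd (n : ℕ) (hn : ¬ Even n) : Q297.Airy.lam (Q297.Airy.q n) = 0 := by
  rw [lam_eq _ n (fun k hk => q_coeff_zero _ k (by omega))]
  apply Finset.sum_eq_zero
  intro i _
  rw [q_coeff_parity, zero_div]
  rw [Nat.even_iff] at hn ⊢
  omega

lemma bcoef_eq (m : ℕ) : bcoef (2 * m) m = Q297.Airy.lam (Q297.Airy.q (2 * m)) := by
  rw [lam_eq _ m (fun k hk => q_coeff_zero _ k hk)]
  unfold bcoef reduced
  rw [Finsupp.finsetSum_apply]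
  have h1 : ∀ j ∈ range (2 * m + 1),
      (∑ k ∈ range (2 * m + 1), c (2 * m) j k • R j k (k + 2)) (m, 0, 2) =
      ∑ k ∈ range (2 * m + 1), (if 2 * j + k = 2 * m then
        (Q297.Airy.q (2 * m)).coeff k / ((k : ℚ) + 1) else 0) := by
    intro j _
    rw [Finsupp.finsetSum_apply]
    apply Finset.sum_congr rfl
    intro k _
    rw [Finsupp.smul_apply, smul_eq_mul]
    rcases lt_trichotomy (2 * j + k) (2 * m) with h | h | h
    · rw [R_apply k j m h.le, if_neg h.ne, if_neg h.ne]; simp
    · rw [R_apply k j m h.le, if_pos h, if_pos h, c_top (2 * m) j k h, if_pos]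
      · ring
      · rw [Nat.even_iff]; omega
    · rw [c_eq_zero h, if_neg h.ne']; simp
  rw [Finset.sum_congr rfl h1, Finset.sum_comm]
  have h2 : ∀ k ∈ range (2 * m + 1), (∑ j ∈ range (2 * m + 1), (if 2 * j + k = 2 * m then
        (Q297.Airy.q (2 * m)).coeff k / ((k : ℚ) + 1) else 0)) =
      if Even k then (Q297.Airy.q (2 * m)).coeff k / ((k : ℚ) + 1) else 0 := by
    intro k hk
    rw [Finset.mem_range] at hk
    split_ifs with he
    · obtain ⟨i, rfl⟩ := he
      rw [Finset.sum_eq_single (m - i)]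
      · rw [if_pos (by omega)]
      · intro j _ hj
        rw [if_neg (by omega)]
      · intro h; exfalso; apply h; rw [Finset.mem_range]; omega
    · apply Finset.sum_eq_zero
      intro j _
      rw [if_neg]
      intro h
      apply he
      rw [Nat.even_iff]; omega
  rw [Finset.sum_congr rfl h2]
  generalize (Q297.Airy.q (2 * m)) = p
  clear h1 h2
  induction m with
  | zero => simp
  | succ n ih =>
    rw [show 2 * (n + 1) + 1 = (2 * n + 1) + 1 + 1 by ring, Finset.sum_range_succ,
      Finset.sum_range_succ, ih, Finset.sum_range_succ _ (n + 1)]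
    have h1 : ¬ Even (2 * n + 1) := by simp
    have h2 : Even (2 * n + 1 + 1) := by
      rw [Nat.even_add_one]; simp
    rw [if_neg h1, if_pos h2]
    have e : 2 * (n + 1) = 2 * n + 1 + 1 := by ring
    rw [e]
    push_cast; ring

lemma ainv_pow (k : ℕ) : ainv ^ k = mon 0 0 (-(k : ℤ)) := by
  induction k with
  | zero => simp [mon, AddMonoidAlgebra.one_def]; rfl
  | succ k ih =>
    rw [pow_succ, ih, mon, ainv, single_mul_mon]
    simp
    rw [show -(k:ℤ) + -1 = -1 + -(k:ℤ) by ring]

lemma monomial_eq (j k : ℕ) : z ^ j * b ^ k * ainv ^ (k + 2) = mon j k (-((k : ℤ) + 2)) := by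
  have hz : ∀ j, z ^ j = mon j 0 0 := by
    intro j
    induction j with
    | zero => simp [mon, AddMonoidAlgebra.one_def]; rfl
    | succ j ih => rw [pow_succ, ih, mon, z, single_mul_mon]; simp
  have hb : ∀ j, b ^ j = mon 0 j 0 := by
    intro j
    induction j with
    | zero => simp [mon, AddMonoidAlgebra.one_def]; rfl
    | succ j ih => rw [pow_succ, ih, mon, b, single_mul_mon]; simp
  rw [hz, hb, ainv_pow, mon, single_mul_mon, mon, smul_mul_assoc, one_smul, single_mul_mon]
  simp

lemma expansion (n : ℕ) : ainv * (⇑D)^[n] ainv =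
    ∑ j ∈ range (n + 1), ∑ k ∈ range (n + 1), c n j k • (z ^ j * b ^ k * ainv ^ (k + 2)) := by
  apply AddMonoidAlgebra.coeff_injective
  ext ⟨j, k, l⟩
  have hL : (ainv * (⇑D)^[n] ainv).coeff (j, k, l) = (y n).coeff (j, k, l + 1) :=
    coeff_ainv_mul _ _ _ _
  rw [hL]
  have hR : (∑ j ∈ range (n + 1), ∑ k ∈ range (n + 1),
      c n j k • (z ^ j * b ^ k * ainv ^ (k + 2))).coeff (j, k, l) =
      ∑ i ∈ range (n + 1), ∑ h ∈ range (n + 1),
        (if i = j ∧ h = k ∧ -((h : ℤ) + 2) = l then c n i h else 0) := by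
    have : ∀ (s : Finset ℕ) (f : ℕ → Alg) (e : ℕ × ℕ × ℤ),
        (∑ i ∈ s, f i).coeff e = ∑ i ∈ s, (f i).coeff e := by
      intro s f e
      induction s using Finset.induction_on with
      | empty => simp
      | insert a s ha ih =>
        rw [Finset.sum_insert ha, Finset.sum_insert ha, AddMonoidAlgebra.coeff_add,
          Finsupp.add_apply, ih]
    rw [this]
    apply Finset.sum_congr rfl
    intro i _
    rw [this]
    apply Finset.sum_congr rfl
    intro h _
    rw [monomial_eq, AddMonoidAlgebra.coeff_smul, Finsupp.smul_apply, coeff_mon, smul_eq_mul]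
    simp only [Prod.mk.injEq]
    split_ifs <;> simp
  rw [hR]
  by_cases hl : l = -((k : ℤ) + 2) ∧ j ≤ n ∧ k ≤ n
  · obtain ⟨hl, hj, hk⟩ := hl
    rw [Finset.sum_eq_single j, Finset.sum_eq_single k, if_pos ⟨rfl, rfl, hl.symm⟩, c_eq]
    · congr 3
      omega
    · intro h _ hh
      rw [if_neg]; omega
    · intro h; exfalso; apply h; rw [Finset.mem_range]; omega
    · intro i _ hi
      apply Finset.sum_eq_zero
      intro h _
      rw [if_neg]; omega
    · intro h; exfalso; apply h; rw [Finset.mem_range]; omega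
  · rw [y_support n j k (l + 1) (by omega)]
    symm
    apply Finset.sum_eq_zero
    intro i hi
    apply Finset.sum_eq_zero
    intro h hh
    rw [Finset.mem_range] at hi hh
    rw [if_neg]
    omega

/-- **Leading coefficients of the Airy moment polynomials.**  With `D` the derivation of
`ℚ[z, a, a⁻¹, b]` given by `D z = 1`, `D a = b`, `D b = z a`, with `c n j k` the coefficients of
`a⁻¹ D ^ n (a⁻¹)` and with `bcoef n j` the coefficients of `p_n` obtained by the reduction `R`, one
has `b_{2m,m} = (2 - 2 ^ (2m)) B_{2m}` for all `m`, that is,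
`∑ b_{2m,m} x ^ (2m) / (2m)! = x / sinh x`. -/
theorem result :
    (D z = 1 ∧ D a = b ∧ D b = z * a ∧ a * ainv = 1) ∧
    (∀ n, ainv * (⇑D)^[n] ainv =
      ∑ j ∈ range (n + 1), ∑ k ∈ range (n + 1), c n j k • (z ^ j * b ^ k * ainv ^ (k + 2))) ∧
    (∀ n s, reduced n s ≠ 0 → s.2 = (0, 2)) ∧
    (∀ m, bcoef (2 * m) m = (2 - 2 ^ (2 * m)) * bernoulli (2 * m)) ∧
    leadingSeries * sinhSeries = PowerSeries.X := by
  refine ⟨⟨?_, ?_, ?_, ?_⟩, expansion, ?_, ?_, ?_⟩
  · rw [D_apply, z, mon, dLin_single]
    simp [dMon, mon, AddMonoidAlgebra.one_def]; rfl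
  · rw [D_apply, a, mon, dLin_single]
    simp [dMon, b, mon]
  · rw [D_apply, b, mon, dLin_single, z, a, mon, single_mul_mon]
    simp [dMon, mon]
  · rw [a, ainv, mon, single_mul_mon]
    simp [mon, AddMonoidAlgebra.one_def]; rfl
  · intro n s h
    by_contra hs
    apply h
    unfold reduced
    rw [Finsupp.finsetSum_apply]
    apply Finset.sum_eq_zero
    intro j _
    rw [Finsupp.finsetSum_apply]
    apply Finset.sum_eq_zero
    intro k _
    rw [Finsupp.smul_apply]
    have : R j k (k + 2) s = 0 := by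
      by_contra h'
      exact hs (R_support k j s h')
    rw [this]; simp
  · intro m
    rw [bcoef_eq, Q297.Airy.lam_q_even]
  · have h1 : sinhSeries = Q297.Airy.sh := rfl
    have h2 : leadingSeries = Q297.Airy.S := by
      ext1 n
      simp only [leadingSeries, Q297.Airy.S, PowerSeries.coeff_mk]
      split_ifs with hn
      · obtain ⟨m, rfl⟩ := hn
        have e : m + m = 2 * m := by ring
        rw [e, Nat.mul_div_cancel_left m (by norm_num), bcoef_eq]
      · rw [lam_q_odd n hn, zero_div]
    rw [h1, h2]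
    exact Q297.Airy.S_mul_sh

end Pool.Agent.Results.MP_c1403d_pr.AiryLeading
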